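import Pool.Agent.Run7.h276.DX.Iface

/-! Pieces STEP and CASE of project DX (helper276, MP_39f9da_an): integer matrices of
determinant a power of two over `SL₂(ℤ)`. -/

namespace Run7.h727.DX

open Matrix Run7.h276.DX

theorem t_STEP : S_STEP := by
  intro l M hM
  obtain ⟨a, ha⟩ : ∃ a, M 0 0 = a := ⟨_, rfl⟩
  obtain ⟨b, hb⟩ : ∃ b, M 0 1 = b := ⟨_, rfl⟩
  obtain ⟨c, hc⟩ : ∃ c, M 1 0 = c := ⟨_, rfl⟩
  obtain ⟨d, hd⟩ : ∃ d, M 1 1 = d := ⟨_, rfl⟩
  rw [Matrix.det_fin_two, ha, hb, hc, hd, pow_succ] at hM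
  have hM2 : (a * d - b * c) % 2 = 0 := by rw [hM]; omega
  have key : ((a % 2) * (d % 2) - (b % 2) * (c % 2)) % 2 = 0 := by
    rw [Int.sub_emod, Int.mul_emod a d, Int.mul_emod b c] at hM2
    rw [Int.sub_emod]
    exact hM2
  have hcase : (a % 2 = 0 ∧ b % 2 = 0) ∨ (c % 2 = 0 ∧ d % 2 = 0) ∨
      ((a + c) % 2 = 0 ∧ (b + d) % 2 = 0) := by
    rcases Int.emod_two_eq_zero_or_one a with h1 | h1 <;>
    rcases Int.emod_two_eq_zero_or_one b with h2 | h2 <;>
    rcases Int.emod_two_eq_zero_or_one c with h3 | h3 <;>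
    rcases Int.emod_two_eq_zero_or_one d with h4 | h4 <;>
    rw [h1, h2, h3, h4] at key <;> omega
  rcases hcase with ⟨h1, h2⟩ | ⟨h1, h2⟩ | ⟨h1, h2⟩
  · obtain ⟨a', rfl⟩ := Int.dvd_of_emod_eq_zero h1
    obtain ⟨b', rfl⟩ := Int.dvd_of_emod_eq_zero h2
    refine ⟨1, !![a', b'; c, d], ?_, ?_⟩
    · ext i j
      fin_cases i <;> fin_cases j <;>
        simp [D, Matrix.mul_apply, Fin.sum_univ_two, ha, hb, hc, hd]
    · rw [Matrix.det_fin_two_of]
      have : 2 * (a' * d - b' * c) = 2 * 2 ^ l := by linarith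
      linarith
  · obtain ⟨c', rfl⟩ := Int.dvd_of_emod_eq_zero h1
    obtain ⟨d', rfl⟩ := Int.dvd_of_emod_eq_zero h2
    refine ⟨w, !![c', d'; -a, -b], ?_, ?_⟩
    · ext i j
      fin_cases i <;> fin_cases j <;>
        simp [D, w, Matrix.mul_apply, Fin.sum_univ_two, ha, hb, hc, hd]
    · rw [Matrix.det_fin_two_of]
      linarith
  · obtain ⟨p, hp⟩ := Int.dvd_of_emod_eq_zero h1
    obtain ⟨q, hq⟩ := Int.dvd_of_emod_eq_zero h2
    have ea : a = 2 * p - c := by linarith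
    have eb : b = 2 * q - d := by linarith
    refine ⟨⟨!![1, -1; 0, 1], by simp⟩, !![p, q; c, d], ?_, ?_⟩
    · ext i j
      fin_cases i <;> fin_cases j <;>
        simp [D, Matrix.mul_apply, Fin.sum_univ_two, ha, hb, hc, hd] <;> linarith
    · rw [Matrix.det_fin_two_of]
      rw [ea, eb] at hM
      linarith

theorem t_CASE : S_CASE := by
  intro k k' A A' h
  obtain ⟨γ, hγ⟩ : ∃ γ : K, γ = k⁻¹ * k' := ⟨_, rfl⟩
  have hk' : k' = k * γ := by rw [hγ]; group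
  have hkk : (k⁻¹ : K).1 * k.1 = 1 := congrArg Subtype.val (inv_mul_cancel k)
  have h1 : D * A = γ.1 * D * A' := by
    have h2 : k.1 * (D * A) = k.1 * (γ.1 * D * A') := by
      have e : k'.1 = k.1 * γ.1 := by rw [hk']; rfl
      calc k.1 * (D * A) = k.1 * D * A := by rw [Matrix.mul_assoc]
        _ = k'.1 * D * A' := h
        _ = k.1 * (γ.1 * D * A') := by rw [e]; simp only [Matrix.mul_assoc]
    have h3 := congrArg (fun X => (k⁻¹ : K).1 * X) h2
    simp only [← Matrix.mul_assoc, hkk, Matrix.one_mul] at h3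
    simpa only [Matrix.mul_assoc] using h3
  obtain ⟨p, hp⟩ : ∃ p, γ.1 0 0 = p := ⟨_, rfl⟩
  obtain ⟨q, hq⟩ : ∃ q, γ.1 0 1 = q := ⟨_, rfl⟩
  obtain ⟨r, hr⟩ : ∃ r, γ.1 1 0 = r := ⟨_, rfl⟩
  obtain ⟨s, hs⟩ : ∃ s, γ.1 1 1 = s := ⟨_, rfl⟩
  have hdet : p * s - q * r = 1 := by
    have := γ.2
    rw [Matrix.det_fin_two, hp, hq, hr, hs] at this
    exact this
  have e00 := congrFun (congrFun h1 0) 0
  have e01 := congrFun (congrFun h1 0) 1
  have e10 := congrFun (congrFun h1 1) 0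
  have e11 := congrFun (congrFun h1 1) 1
  simp [D, Matrix.mul_apply, Fin.sum_univ_two, hp, hq, hr, hs] at e00 e01 e10 e11
  rcases Int.even_or_odd' q with ⟨q', hq' | hq'⟩
  · left
    refine ⟨γ, ⟨!![p, q'; 2 * r, s], ?_⟩, hk', ⟨?_, ?_, ?_, ?_⟩, ?_⟩
    · rw [Matrix.det_fin_two_of, ← hdet, hq']; ring
    · simp [hq, hq']
    · simp [hp]
    · simp [hr]
    · simp [hs]
    · rw [hq'] at e00 e01
      ext i j
      fin_cases i <;> fin_cases j <;>
        simp [Matrix.mul_apply, Fin.sum_univ_two] <;> linarith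
  · right
    obtain ⟨u', hu⟩ : ∃ u', A' 1 0 = 2 * u' := by
      refine ⟨A 0 0 - p * A' 0 0 - q' * A' 1 0, ?_⟩
      rw [hq'] at e00
      linarith
    obtain ⟨v', hv⟩ : ∃ v', A' 1 1 = 2 * v' := by
      refine ⟨A 0 1 - p * A' 0 1 - q' * A' 1 1, ?_⟩
      rw [hq'] at e01
      linarith
    refine ⟨!![A 0 0, A 0 1; r * A' 0 0 + s * u', r * A' 0 1 + s * v'],
      !![A' 0 0, A' 0 1; u', v'], ?_, ?_, ?_⟩
    · ext i j
      rw [hu] at e10
      rw [hv] at e11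
      fin_cases i <;> fin_cases j <;>
        simp [D', Matrix.mul_apply, Fin.sum_univ_two] <;> linarith
    · ext i j
      fin_cases i <;> fin_cases j <;>
        simp [D', Matrix.mul_apply, Fin.sum_univ_two, hu, hv]
    · have hB : (!![A 0 0, A 0 1; r * A' 0 0 + s * u', r * A' 0 1 + s * v'] :
          Matrix (Fin 2) (Fin 2) ℤ) = γ.1 * !![A' 0 0, A' 0 1; u', v'] := by
        rw [hu] at e00
        rw [hv] at e01
        ext i j
        fin_cases i <;> fin_cases j <;>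
          simp [Matrix.mul_apply, Fin.sum_univ_two, hp, hq, hr, hs] <;> linarith
      rw [hB, ← Matrix.mul_assoc, hk']
      rfl

end Run7.h727.DX
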